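import Pool.Agent.Helper25.HL.Goals3

/-!
# Project HL, packet H1: the matrix acts between the functionals `KK`
-/

set_option autoImplicit false

namespace Pool.Agent.Helper53.HL

open Pool.Agent.Helper25.HL

theorem l1_sum_le {ι κ : Type} [Fintype ι] [Fintype κ] (c : κ → ℂ) (x : κ → ι → ℂ) :
    l1 (∑ j, c j • x j) ≤ ∑ j, ‖c j‖ * l1 (x j) := by
  unfold l1
  calc ∑ t, ‖(∑ j, c j • x j) t‖ ≤ ∑ t, ∑ j, ‖c j‖ * ‖x j t‖ := by
        refine Finset.sum_le_sum fun t _ ↦ ?_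
        rw [Finset.sum_apply]
        refine (norm_sum_le _ _).trans (le_of_eq ?_)
        refine Finset.sum_congr rfl fun j _ ↦ ?_
        rw [Pi.smul_apply, smul_eq_mul, norm_mul]
    _ = ∑ j, ‖c j‖ * ∑ t, ‖x j t‖ := by
        rw [Finset.sum_comm]
        refine Finset.sum_congr rfl fun j _ ↦ ?_
        rw [Finset.mul_sum]

/-- The rows of a bounded matrix. -/
theorem row_le {n N : ℕ} {A : Fin n → Fin N → ℂ} {c : ℝ} (hc : 0 < c)
    (h : ∀ v : Fin N → ℂ, ∑ m, ‖∑ j, A m j * v j‖ ^ 2 ≤ c * ∑ j, ‖v j‖ ^ 2) (m : Fin n) :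
    ∑ j, ‖A m j‖ ^ 2 ≤ c := by
  have h1 := h (fun j ↦ (starRingEnd ℂ) (A m j))
  simp only [RCLike.norm_conj] at h1
  have h2 : ‖∑ j, A m j * (starRingEnd ℂ) (A m j)‖ = ∑ j, ‖A m j‖ ^ 2 := by
    have h3 : ∑ j, A m j * (starRingEnd ℂ) (A m j) = ((∑ j, ‖A m j‖ ^ 2 : ℝ) : ℂ) := by
      rw [Complex.ofReal_sum]
      refine Finset.sum_congr rfl fun j _ ↦ ?_
      rw [Complex.mul_conj', Complex.ofReal_pow]
    rw [h3, Complex.norm_real, Real.norm_of_nonneg (by positivity)]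
  have h4 : (∑ j, ‖A m j‖ ^ 2) ^ 2 ≤ c * ∑ j, ‖A m j‖ ^ 2 := by
    rw [← h2] at h1 ⊢
    refine le_trans ?_ h1
    exact Finset.single_le_sum (f := fun m' ↦ ‖∑ j, A m' j * (starRingEnd ℂ) (A m j)‖ ^ 2)
      (fun _ _ ↦ by positivity) (Finset.mem_univ m)
  by_contra hcon
  push Not at hcon
  nlinarith

theorem h1 (h : S_H0) : S_H1 := by
  intro n N F p q σ z ρ ρ' hρ hρ' hn
  refine le_of_forall_pos_le_add fun ε hε ↦ ?_
  set e : ℝ := ε / (4 * (N + 1)) with he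
  have he0 : 0 < e := by positivity
  have hb : ∀ j, ∃ b : Fin q → ℂ, pq2 (z j - Gm σ b) + (l1 b) ^ 2 / ρ < (KK σ ρ (z j)) ^ 2 + e := by
    intro j
    have h1 : KK σ ρ (z j) < Real.sqrt ((KK σ ρ (z j)) ^ 2 + e) := by
      apply Real.lt_sqrt_of_sq_lt
      linarith
    obtain ⟨b, hb⟩ := exists_lt_of_ciInf_lt h1
    refine ⟨b, ?_⟩
    have h0 : 0 ≤ pq2 (z j - Gm σ b) + (l1 b) ^ 2 / ρ :=
      add_nonneg (pq2_nn _) (by positivity)
    exact (Real.sqrt_lt_sqrt_iff h0).1 hb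
  choose b hb using hb
  set S2 : ℝ := ∑ j, (l1 (b j)) ^ 2 with hS2
  have hS0 : 0 ≤ S2 := Finset.sum_nonneg fun j _ ↦ by positivity
  have hB := row_le (A := F.B) one_pos (by simpa using F.hB)
  have hC := row_le (A := F.C) four_pos F.hC
  -- the vectors `c m`
  have hcm : ∀ m, (l1 (∑ j, F.B m j • b j)) ^ 2 ≤ S2 := by
    intro m
    have h2 := l1_sum_le (F.B m) b
    calc (l1 (∑ j, F.B m j • b j)) ^ 2 ≤ (∑ j, ‖F.B m j‖ * l1 (b j)) ^ 2 := by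
          gcongr
          exact l1_nn _
      _ ≤ (∑ j, ‖F.B m j‖ ^ 2) * ∑ j, (l1 (b j)) ^ 2 := Finset.sum_mul_sq_le_sq_mul_sq _ _ _
      _ ≤ 1 * S2 := by
          rw [← hS2]
          exact mul_le_mul_of_nonneg_right (hB m) hS0
      _ = S2 := one_mul _
  have hβ : ∀ i, ∑ j, F.a j i • b j = ∑ m, F.C m i • ∑ j, F.B m j • b j := by
    intro i
    simp only [Fac.a, Finset.sum_smul, Finset.smul_sum, smul_smul]
    rw [Finset.sum_comm]
    refine Finset.sum_congr rfl fun m _ ↦ Finset.sum_congr rfl fun j _ ↦ ?_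
    rw [mul_comm]
  have hl : ∀ i, (l1 (∑ j, F.a j i • b j)) ^ 2 ≤ n * ((∑ m, ‖F.C m i‖ ^ 2) * S2) := by
    intro i
    rw [hβ]
    have h2 := l1_sum_le (fun m ↦ F.C m i) (fun m ↦ ∑ j, F.B m j • b j)
    calc (l1 (∑ m, F.C m i • ∑ j, F.B m j • b j)) ^ 2
        ≤ (∑ m, ‖F.C m i‖ * l1 (∑ j, F.B m j • b j)) ^ 2 := by
          gcongr
          exact l1_nn _
      _ = (∑ m : Fin n, 1 * (‖F.C m i‖ * l1 (∑ j, F.B m j • b j))) ^ 2 := by simp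
      _ ≤ (∑ _m : Fin n, (1 : ℝ) ^ 2) * ∑ m, (‖F.C m i‖ * l1 (∑ j, F.B m j • b j)) ^ 2 :=
          Finset.sum_mul_sq_le_sq_mul_sq _ _ _
      _ = n * ∑ m, ‖F.C m i‖ ^ 2 * (l1 (∑ j, F.B m j • b j)) ^ 2 := by
          simp [mul_pow]
      _ ≤ n * ∑ m, ‖F.C m i‖ ^ 2 * S2 := by
          gcongr with m
          exact hcm m
      _ = n * ((∑ m, ‖F.C m i‖ ^ 2) * S2) := by rw [Finset.sum_mul]
  have hsum : ∑ i, (l1 (∑ j, F.a j i • b j)) ^ 2 ≤ 4 * n ^ 2 * S2 := by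
    calc ∑ i, (l1 (∑ j, F.a j i • b j)) ^ 2 ≤ ∑ i, n * ((∑ m, ‖F.C m i‖ ^ 2) * S2) :=
          Finset.sum_le_sum fun i _ ↦ hl i
      _ = n * ((∑ m, ∑ i, ‖F.C m i‖ ^ 2) * S2) := by
          rw [← Finset.mul_sum, ← Finset.sum_mul, Finset.sum_comm]
      _ ≤ n * ((∑ _m : Fin n, (4 : ℝ)) * S2) := by
          gcongr with m
          exact hC m
      _ = 4 * n ^ 2 * S2 := by
          simp only [Finset.sum_const, Finset.card_univ, Fintype.card_fin, nsmul_eq_mul]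
          ring
  have hH0 := h n N F p q (fun j ↦ z j - Gm σ (b j))
  have hlin : ∀ i, ∑ j, F.a j i • (z j - Gm σ (b j)) =
      (∑ j, F.a j i • z j) - Gm σ (∑ j, F.a j i • b j) := by
    intro i
    rw [map_sum, ← Finset.sum_sub_distrib]
    refine Finset.sum_congr rfl fun j _ ↦ ?_
    rw [smul_sub, map_smul]
  have hK : ∀ i, (KK σ ρ' (∑ j, F.a j i • z j)) ^ 2 ≤
      pq2 (∑ j, F.a j i • (z j - Gm σ (b j))) + (l1 (∑ j, F.a j i • b j)) ^ 2 / ρ' := by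
    intro i
    have h2 := KK_le σ ρ' (∑ j, F.a j i • z j) (∑ j, F.a j i • b j)
    rw [← hlin] at h2
    have h3 : 0 ≤ pq2 (∑ j, F.a j i • (z j - Gm σ (b j))) +
        (l1 (∑ j, F.a j i • b j)) ^ 2 / ρ' := add_nonneg (pq2_nn _) (by positivity)
    calc (KK σ ρ' (∑ j, F.a j i • z j)) ^ 2 ≤ (Real.sqrt (pq2 (∑ j, F.a j i • (z j - Gm σ (b j))) +
        (l1 (∑ j, F.a j i • b j)) ^ 2 / ρ')) ^ 2 := by
          gcongr
          exact KK_nn _ _ _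
      _ = _ := Real.sq_sqrt h3
  have hdiv : 4 * (n : ℝ) ^ 2 * S2 / ρ' ≤ 4 * (S2 / ρ) := by
    rw [mul_div_assoc', div_le_div_iff₀ hρ' hρ]
    nlinarith [mul_le_mul_of_nonneg_left hn hS0]
  calc ∑ i, (KK σ ρ' (∑ j, F.a j i • z j)) ^ 2
      ≤ ∑ i, (pq2 (∑ j, F.a j i • (z j - Gm σ (b j))) + (l1 (∑ j, F.a j i • b j)) ^ 2 / ρ') :=
        Finset.sum_le_sum fun i _ ↦ hK i
    _ = ∑ i, pq2 (∑ j, F.a j i • (z j - Gm σ (b j))) +
        (∑ i, (l1 (∑ j, F.a j i • b j)) ^ 2) / ρ' := by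
        rw [Finset.sum_add_distrib, Finset.sum_div]
    _ ≤ 4 * ∑ j, pq2 (z j - Gm σ (b j)) + 4 * (n : ℝ) ^ 2 * S2 / ρ' := by
        refine add_le_add hH0 ?_
        gcongr
    _ ≤ 4 * ∑ j, pq2 (z j - Gm σ (b j)) + 4 * (S2 / ρ) := by linarith
    _ = 4 * ∑ j, (pq2 (z j - Gm σ (b j)) + (l1 (b j)) ^ 2 / ρ) := by
        rw [Finset.sum_add_distrib, hS2, Finset.sum_div]
        ring
    _ ≤ 4 * ∑ j, ((KK σ ρ (z j)) ^ 2 + e) := by
        refine mul_le_mul_of_nonneg_left ?_ (by norm_num)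
        exact Finset.sum_le_sum fun j _ ↦ (hb j).le
    _ = 4 * ∑ j, (KK σ ρ (z j)) ^ 2 + 4 * N * e := by
        rw [Finset.sum_add_distrib]
        simp only [Finset.sum_const, Finset.card_univ, Fintype.card_fin, nsmul_eq_mul]
        ring
    _ ≤ 4 * ∑ j, (KK σ ρ (z j)) ^ 2 + ε := by
        have h5 : 4 * (N : ℝ) * e ≤ ε := by
          rw [he, mul_div_assoc', div_le_iff₀ (by positivity)]
          nlinarith
        linarith

end Pool.Agent.Helper53.HL
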