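import Pool.Agent.Helper25.HL.Goals4

/-!
# Project HL, packet RP0: representation of any level component
-/

set_option autoImplicit false

namespace Pool.Agent.Helper53.HL

open Pool.Agent.Helper25.HL

section coord

variable (P : ℕ → ℕ) (D : ∀ k, Lv (P k) (P (k + 1)))

/-- The coordinates of a level, as continuous functionals. -/
noncomputable def c1 (k : ℕ) (s : Fin (P k)) : XX P D →L[ℂ] ℂ :=
  (LinearMap.toContinuousLinearMap (((LinearMap.proj s : (Fin (P k) → ℂ) →ₗ[ℂ] ℂ).comp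
    (LinearMap.fst ℂ (Fin (P k) → ℂ) (Fin (P (k + 1)) → ℂ))).comp
      (toPair (D k)).toLinearMap)).comp (lp.evalCLM ℂ (fun k => LV (D k)) 2 k)

/-- The coordinates of a level, as continuous functionals. -/
noncomputable def c2 (k : ℕ) (t : Fin (P (k + 1))) : XX P D →L[ℂ] ℂ :=
  (LinearMap.toContinuousLinearMap (((LinearMap.proj t : (Fin (P (k + 1)) → ℂ) →ₗ[ℂ] ℂ).comp
    (LinearMap.snd ℂ (Fin (P k) → ℂ) (Fin (P (k + 1)) → ℂ))).comp
      (toPair (D k)).toLinearMap)).comp (lp.evalCLM ℂ (fun k => LV (D k)) 2 k)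

theorem c1_apply (k : ℕ) (s : Fin (P k)) (x : XX P D) : c1 P D k s x = (pr P D x k).1 s := rfl

theorem c2_apply (k : ℕ) (t : Fin (P (k + 1))) (x : XX P D) : c2 P D k t x = (pr P D x k).2 t :=
  rfl

/-- The combined coordinates, as continuous functionals. -/
noncomputable def hL : ∀ (k : ℕ), Fin (P k) → (XX P D →L[ℂ] ℂ)
  | 0 => fun s ↦ c1 P D 0 s
  | k + 1 => fun s ↦ c2 P D k s + c1 P D (k + 1) s

theorem hL_apply (k : ℕ) (s : Fin (P k)) (x : XX P D) : hL P D k s x = hh P D x k s := by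
  cases k with
  | zero => rfl
  | succ k => rfl

theorem pr_emb_self (k : ℕ) (z : LV (D k)) : pr P D (emb P D k z) k = toPair (D k) z := by
  unfold pr
  congr 1
  exact lp.single_apply_self (E := fun k ↦ LV (D k)) 2 k z

theorem pr_emb_ne {j k : ℕ} (h : j ≠ k) (z : LV (D k)) : pr P D (emb P D k z) j = 0 := by
  unfold pr
  have h1 : (emb P D k z) j = 0 :=
    lp.single_apply_ne (E := fun k ↦ LV (D k)) 2 k z h
  rw [h1, map_zero]

theorem hh_emb (k : ℕ) (z : LV (D k)) : hh P D (emb P D k z) k = (toPair (D k) z).1 := by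
  cases k with
  | zero =>
    show (pr P D (emb P D 0 z) 0).1 = _
    rw [pr_emb_self]
  | succ k =>
    show (pr P D (emb P D (k + 1) z) k).2 + (pr P D (emb P D (k + 1) z) (k + 1)).1 = _
    rw [pr_emb_self, pr_emb_ne P D (Nat.lt_succ_self k).ne, Prod.snd_zero, zero_add]

theorem hh_emb_succ (k : ℕ) (z : LV (D k)) :
    hh P D (emb P D k z) (k + 1) = (toPair (D k) z).2 := by
  show (pr P D (emb P D k z) k).2 + (pr P D (emb P D k z) (k + 1)).1 = _
  rw [pr_emb_self, pr_emb_ne P D (Nat.lt_succ_self k).ne', Prod.fst_zero, add_zero]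

/-- A representation over any finite index type. -/
theorem fRep_of (k : ℕ) (c : ℝ) (ι : Type) [Fintype ι] (F : ι → (XX P D →L[ℂ] ℂ))
    (v : ι → XX P D) (h1 : ∀ x, ∑ m, F m x • v m = TT P D k x) (h2 : ∑ m, F m (v m) = 0)
    (h3 : ∑ m, ‖F m‖ * ‖v m‖ ≤ c) : FRep P D k c := by
  refine ⟨Fintype.card ι, fun m ↦ F ((Fintype.equivFin ι).symm m),
    fun m ↦ v ((Fintype.equivFin ι).symm m), ?_, ?_, ?_⟩
  · intro x
    rw [← h1 x]
    exact (Fintype.equivFin ι).symm.sum_comp (fun m ↦ F m x • v m)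
  · rw [← h2]
    exact (Fintype.equivFin ι).symm.sum_comp (fun m ↦ F m (v m))
  · refine le_trans (le_of_eq ?_) h3
    exact (Fintype.equivFin ι).symm.sum_comp (fun m ↦ ‖F m‖ * ‖v m‖)

end coord

theorem rp0 : S_RP0 := by
  intro P D hP k
  classical
  let L : ((Fin (P k) → ℂ) × (Fin (P (k + 1)) → ℂ)) →ₗ[ℂ] XX P D :=
    (emb P D k).toLinearMap.comp (toPair (D k)).symm.toLinearMap
  let F : Fin (P k) ⊕ Fin (P (k + 1)) → (XX P D →L[ℂ] ℂ) :=
    Sum.elim (fun s ↦ ((1 / (P k : ℝ) : ℝ) : ℂ) • hL P D k s)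
      (fun t ↦ (-((1 / (P (k + 1) : ℝ) : ℝ) : ℂ)) • hL P D (k + 1) t)
  let v : Fin (P k) ⊕ Fin (P (k + 1)) → XX P D :=
    Sum.elim (fun s ↦ L (Pi.single s 1, 0)) (fun t ↦ L (0, Pi.single t 1))
  refine ⟨∑ m, ‖F m‖ * ‖v m‖, fRep_of P D k _ _ F v ?_ ?_ le_rfl⟩
  · intro x
    rw [Fintype.sum_sum_type]
    simp only [F, v, Sum.elim_inl, Sum.elim_inr]
    simp only [← map_smul, ← map_sum]
    have h1 : ∑ s : Fin (P k), (((1 / (P k : ℝ) : ℝ) : ℂ) • hL P D k s) x •
        ((Pi.single s 1 : Fin (P k) → ℂ), (0 : Fin (P (k + 1)) → ℂ)) =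
        (((1 / (P k : ℝ) : ℝ) : ℂ) • hh P D x k, 0) := by
      apply Prod.ext
      · rw [Prod.fst_sum]
        funext s
        simp [Finset.sum_apply, Pi.single_apply, hL_apply]
      · rw [Prod.snd_sum]
        simp
    have h2 : ∑ t : Fin (P (k + 1)), ((-((1 / (P (k + 1) : ℝ) : ℝ) : ℂ)) • hL P D (k + 1) t) x •
        ((0 : Fin (P k) → ℂ), (Pi.single t 1 : Fin (P (k + 1)) → ℂ)) =
        (0, (-((1 / (P (k + 1) : ℝ) : ℝ) : ℂ)) • hh P D x (k + 1)) := by
      apply Prod.ext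
      · rw [Prod.fst_sum]
        simp
      · rw [Prod.snd_sum]
        funext s
        simp [Finset.sum_apply, Pi.single_apply, hL_apply]
    rw [h1, h2, ← map_add]
    unfold TT
    have h3 : ((((1 / (P k : ℝ) : ℝ) : ℂ) • hh P D x k, (0 : Fin (P (k + 1)) → ℂ)) +
        ((0 : Fin (P k) → ℂ), (-((1 / (P (k + 1) : ℝ) : ℝ) : ℂ)) • hh P D x (k + 1))) =
        (((1 / (P k : ℝ) : ℝ) : ℂ) • hh P D x k,
          (-((1 / (P (k + 1) : ℝ) : ℝ) : ℂ)) • hh P D x (k + 1)) := by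
      rw [Prod.mk_add_mk, add_zero, zero_add]
    rw [h3]
    rfl
  · rw [Fintype.sum_sum_type]
    have h1 : ∀ s : Fin (P k), F (Sum.inl s) (v (Sum.inl s)) = ((1 / (P k : ℝ) : ℝ) : ℂ) := by
      intro s
      simp only [F, v, Sum.elim_inl]
      rw [smul_apply, hL_apply]
      have h2 : hh P D (L (Pi.single s 1, 0)) k = Pi.single s 1 := by
        show hh P D (emb P D k ((toPair (D k)).symm (Pi.single s 1, 0))) k = _
        rw [hh_emb, LinearEquiv.apply_symm_apply]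
      rw [h2, Pi.single_eq_same, smul_eq_mul, mul_one]
    have h1' : ∀ t : Fin (P (k + 1)), F (Sum.inr t) (v (Sum.inr t)) =
        -((1 / (P (k + 1) : ℝ) : ℝ) : ℂ) := by
      intro t
      simp only [F, v, Sum.elim_inr]
      rw [smul_apply, hL_apply]
      have h2 : hh P D (L (0, Pi.single t 1)) (k + 1) = Pi.single t 1 := by
        show hh P D (emb P D k ((toPair (D k)).symm (0, Pi.single t 1))) (k + 1) = _
        rw [hh_emb_succ, LinearEquiv.apply_symm_apply]
      rw [h2, Pi.single_eq_same, smul_eq_mul, mul_one]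
    rw [Finset.sum_congr rfl fun s _ ↦ h1 s, Finset.sum_congr rfl fun t _ ↦ h1' t]
    have h3 : (P k : ℂ) ≠ 0 := by
      have := hP k
      exact_mod_cast (by omega : P k ≠ 0)
    have h4 : (P (k + 1) : ℂ) ≠ 0 := by
      have := hP (k + 1)
      exact_mod_cast (by omega : P (k + 1) ≠ 0)
    simp only [Finset.sum_const, Finset.card_univ, Fintype.card_fin, nsmul_eq_mul]
    push_cast
    field_simp
    ring

end Pool.Agent.Helper53.HL
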