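import Pool.Agent.Helper25.HL.Goals1

/-!
# Project HL, packet DU: duality for the regularised projection
-/

set_option autoImplicit false

namespace Pool.Agent.Helper53.HL

open Pool.Agent.Helper25.HL

theorem du (h : S_ADJ) : S_DU := by
  intro κ ι τ _ _ _ t g f ht hf
  -- the coordinates
  set ξ : τ → κ → ℂ := fun a m ↦ ∑ j, g j a * (starRingEnd ℂ) (t j m) with hξ
  have h1 : ∀ i a, f i a = ∑ m, t i m * ξ a m := by
    intro i a
    rw [hf i]
    simp only [Finset.sum_apply, Pi.smul_apply, smul_eq_mul, ip, hξ, Finset.mul_sum,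
      Finset.sum_mul]
    rw [Finset.sum_comm]
    refine Finset.sum_congr rfl fun m _ ↦ Finset.sum_congr rfl fun j _ ↦ by ring
  have h2 : ∀ i a, (starRingEnd ℂ) (f i a) = ip (t i) (fun m ↦ (starRingEnd ℂ) (ξ a m)) := by
    intro i a
    rw [h1, map_sum]
    simp only [map_mul, ip]
  have h3 : ∑ i, ip (f i) (g i) = ((∑ a, ∑ m, ‖ξ a m‖ ^ 2 : ℝ) : ℂ) := by
    have h4 : ∀ a m, ((‖ξ a m‖ ^ 2 : ℝ) : ℂ) =
        ∑ i, (starRingEnd ℂ) (t i m) * (starRingEnd ℂ) (ξ a m) * g i a := by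
      intro a m
      rw [Complex.ofReal_pow, ← Complex.conj_mul']
      conv_lhs => rw [hξ]
      simp only [Finset.mul_sum]
      refine Finset.sum_congr rfl fun i _ ↦ ?_
      ring
    rw [Complex.ofReal_sum]
    simp only [Complex.ofReal_sum, h4]
    simp only [ip, h2, Finset.sum_mul]
    rw [Finset.sum_comm]
    refine Finset.sum_congr rfl fun a _ ↦ ?_
    rw [Finset.sum_comm]
  have h5 : ∑ i, sq (f i) ≤ ∑ a, ∑ m, ‖ξ a m‖ ^ 2 := by
    unfold Pool.Agent.Helper25.HL.sq
    rw [Finset.sum_comm]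
    refine Finset.sum_le_sum fun a _ ↦ ?_
    have h6 := h κ ι t 1 zero_le_one (by simpa using ht) (fun m ↦ (starRingEnd ℂ) (ξ a m))
    rw [one_mul] at h6
    unfold Pool.Agent.Helper25.HL.sq at h6
    simp only [RCLike.norm_conj] at h6
    refine le_trans (le_of_eq ?_) h6
    refine Finset.sum_congr rfl fun i _ ↦ ?_
    rw [← h2, RCLike.norm_conj]
  rw [h3, Complex.norm_real, Real.norm_of_nonneg (by positivity)]
  exact h5

end Pool.Agent.Helper53.HL
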