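import Pool.Agent.Helper25.HL.Goals1

/-!
# Project HL, packet SA1: sampling, nonnegative functions
-/

set_option autoImplicit false

namespace Pool.Agent.Helper53.HL

open Pool.Agent.Helper25.HL Finset

section prob

variable {ι : Type} [Fintype ι] {N : ℕ} {w : ι → ℝ}

/-- The total mass. -/
theorem mass (hw : ∑ j, w j = 1) : ∑ J : Fin N → ι, ∏ i, w (J i) = 1 := by
  classical
  have h := Finset.prod_univ_sum (fun _ : Fin N ↦ (Finset.univ : Finset ι)) (fun _ j ↦ w j)
  rw [Fintype.piFinset_univ] at h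
  rw [← h]
  simp [hw]

/-- The marginals. -/
theorem marg (hw : ∑ j, w j = 1) (i₀ : Fin N) (f : ι → ℝ) :
    ∑ J : Fin N → ι, (∏ i, w (J i)) * f (J i₀) = ∑ j, w j * f j := by
  classical
  have h := Finset.prod_univ_sum (fun _ : Fin N ↦ (Finset.univ : Finset ι))
    (fun i j ↦ w j * (if i = i₀ then f j else 1))
  rw [Fintype.piFinset_univ] at h
  have h1 : ∀ J : Fin N → ι, (∏ i, w (J i)) * f (J i₀) =
      ∏ i, w (J i) * (if i = i₀ then f (J i) else 1) := by
    intro J
    rw [Finset.prod_mul_distrib, Finset.prod_ite_eq' Finset.univ i₀ (fun i ↦ f (J i)),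
      if_pos (Finset.mem_univ _)]
  simp only [h1]
  rw [← h]
  have h2 : ∀ i : Fin N, ∑ j, w j * (if i = i₀ then f j else 1) =
      if i = i₀ then ∑ j, w j * f j else 1 := by
    intro i
    split_ifs with hi
    · rfl
    · simpa using hw
  simp only [h2]
  rw [Finset.prod_ite_eq' Finset.univ i₀ (fun _ ↦ ∑ j, w j * f j), if_pos (Finset.mem_univ _)]

/-- The joint marginals of products. -/
theorem marg2 (hw : ∑ j, w j = 1) {i₀ i₁ : Fin N} (hi : i₀ ≠ i₁) (f g : ι → ℝ) :
    ∑ J : Fin N → ι, (∏ i, w (J i)) * (f (J i₀) * g (J i₁)) =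
      (∑ j, w j * f j) * ∑ j, w j * g j := by
  classical
  have h := Finset.prod_univ_sum (fun _ : Fin N ↦ (Finset.univ : Finset ι))
    (fun i j ↦ w j * ((if i = i₀ then f j else 1) * (if i = i₁ then g j else 1)))
  rw [Fintype.piFinset_univ] at h
  have h1 : ∀ J : Fin N → ι, (∏ i, w (J i)) * (f (J i₀) * g (J i₁)) =
      ∏ i, w (J i) * ((if i = i₀ then f (J i) else 1) * (if i = i₁ then g (J i) else 1)) := by
    intro J
    rw [Finset.prod_mul_distrib, Finset.prod_mul_distrib,
      Finset.prod_ite_eq' Finset.univ i₀ (fun i ↦ f (J i)),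
      Finset.prod_ite_eq' Finset.univ i₁ (fun i ↦ g (J i)),
      if_pos (Finset.mem_univ _), if_pos (Finset.mem_univ _)]
  simp only [h1]
  rw [← h]
  have h2 : ∀ i : Fin N, ∑ j, w j * ((if i = i₀ then f j else 1) * (if i = i₁ then g j else 1)) =
      (if i = i₀ then ∑ j, w j * f j else 1) * (if i = i₁ then ∑ j, w j * g j else 1) := by
    intro i
    by_cases hi0 : i = i₀
    · have hi1 : i ≠ i₁ := by
        rw [hi0]
        exact hi
      simp [hi0, hi]
    · by_cases hi1 : i = i₁
      · simp [hi1, hi.symm]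
      · simpa [hi0, hi1] using hw
  simp only [h2]
  rw [Finset.prod_mul_distrib, Finset.prod_ite_eq' Finset.univ i₀ (fun _ ↦ ∑ j, w j * f j),
    Finset.prod_ite_eq' Finset.univ i₁ (fun _ ↦ ∑ j, w j * g j), if_pos (Finset.mem_univ _),
    if_pos (Finset.mem_univ _)]

end prob

/-- The bad indices. -/
noncomputable def bad {ι : Type} {N q : ℕ} (supp : ι → Finset (Fin q)) (J : Fin N → ι) :
    Finset (Fin N) :=
  Finset.univ.filter fun i ↦ ∃ i', i' ≠ i ∧ ¬ Disjoint (supp (J i)) (supp (J i'))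

theorem disjOn_good {ι : Type} {N q : ℕ} (supp : ι → Finset (Fin q)) (J : Fin N → ι) :
    DisjOn supp J (bad supp J)ᶜ := by
  intro i hi i' _ hne
  rw [Finset.mem_compl, bad, Finset.mem_filter, not_and] at hi
  have h := hi (Finset.mem_univ _)
  push Not at h
  exact h i' hne.symm

/-- The number of the bad indices is bounded by a sum of products. -/
theorem card_bad_le {ι : Type} {N q : ℕ} (supp : ι → Finset (Fin q)) (J : Fin N → ι) :
    ((bad supp J).card : ℝ) ≤ ∑ i : Fin N, ∑ i' : Fin N, if i = i' then 0 else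
      ∑ t : Fin q, (if t ∈ supp (J i) then (1 : ℝ) else 0) * (if t ∈ supp (J i') then 1 else 0) := by
  classical
  rw [bad, Finset.card_filter, Nat.cast_sum]
  refine Finset.sum_le_sum fun i _ ↦ ?_
  have h0 : ∀ i' : Fin N, 0 ≤ (if i = i' then 0 else
      ∑ t : Fin q, (if t ∈ supp (J i) then (1 : ℝ) else 0) *
        (if t ∈ supp (J i') then 1 else 0)) := by
    intro i'
    split_ifs
    · exact le_rfl
    · refine Finset.sum_nonneg fun t _ ↦ ?_
      positivity
  split_ifs with hi
  · obtain ⟨i', hi1, hi2⟩ := hi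
    rw [Finset.not_disjoint_iff] at hi2
    obtain ⟨t, ht1, ht2⟩ := hi2
    rw [Nat.cast_one]
    refine le_trans ?_ (Finset.single_le_sum (fun j _ ↦ h0 j) (Finset.mem_univ i'))
    rw [if_neg hi1.symm]
    refine le_trans ?_ (Finset.single_le_sum (fun j _ ↦ by positivity) (Finset.mem_univ t))
    rw [if_pos ht1, if_pos ht2, mul_one]
  · rw [Nat.cast_zero]
    exact Finset.sum_nonneg fun j _ ↦ h0 j

/-- The mean of the number of the bad indices. -/
theorem mean_bad {ι : Type} [Fintype ι] {N q s : ℕ} {w : ι → ℝ} {supp : ι → Finset (Fin q)}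
    {ρ : ℝ} (hw0 : ∀ j, 0 ≤ w j) (hw : ∑ j, w j = 1) (hs : ∀ j, (supp j).card ≤ s)
    (hρ : ∀ t, ∑ j, (if t ∈ supp j then w j else 0) ≤ ρ) (hρ0 : 0 ≤ ρ) :
    ∑ J : Fin N → ι, (∏ i, w (J i)) * ((bad supp J).card : ℝ) ≤ N ^ 2 * (s * ρ) := by
  classical
  have h1 : ∀ i i' : Fin N, ∑ J : Fin N → ι, (∏ k, w (J k)) * (if i = i' then 0 else
      ∑ t : Fin q, (if t ∈ supp (J i) then (1 : ℝ) else 0) *
        (if t ∈ supp (J i') then 1 else 0)) ≤ s * ρ := by
    intro i i'
    by_cases hii : i = i'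
    · simp only [if_pos hii, mul_zero, Finset.sum_const_zero]
      positivity
    · simp only [if_neg hii, Finset.mul_sum]
      rw [Finset.sum_comm]
      have h2 : ∀ t : Fin q, ∑ J : Fin N → ι, (∏ k, w (J k)) *
          ((if t ∈ supp (J i) then (1 : ℝ) else 0) * (if t ∈ supp (J i') then 1 else 0)) =
          (∑ j, w j * (if t ∈ supp j then 1 else 0)) * ∑ j, w j * (if t ∈ supp j then 1 else 0) :=
        fun t ↦ marg2 hw hii (fun j ↦ if t ∈ supp j then (1 : ℝ) else 0)
          (fun j ↦ if t ∈ supp j then (1 : ℝ) else 0)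
      rw [Finset.sum_congr rfl fun t _ ↦ h2 t]
      have h3 : ∀ t : Fin q, ∑ j, w j * (if t ∈ supp j then 1 else 0) ≤ ρ := by
        intro t
        refine le_trans (le_of_eq ?_) (hρ t)
        refine Finset.sum_congr rfl fun j _ ↦ ?_
        rw [mul_ite, mul_one, mul_zero]
      have h4 : ∀ t : Fin q, 0 ≤ ∑ j, w j * (if t ∈ supp j then (1 : ℝ) else 0) := by
        intro t
        refine Finset.sum_nonneg fun j _ ↦ mul_nonneg (hw0 j) ?_
        positivity
      calc ∑ t : Fin q, (∑ j, w j * (if t ∈ supp j then (1 : ℝ) else 0)) *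
            ∑ j, w j * (if t ∈ supp j then 1 else 0)
          ≤ ∑ t : Fin q, (∑ j, w j * (if t ∈ supp j then (1 : ℝ) else 0)) * ρ :=
            Finset.sum_le_sum fun t _ ↦ mul_le_mul_of_nonneg_left (h3 t) (h4 t)
        _ = (∑ j, w j * ((supp j).card : ℝ)) * ρ := by
            rw [← Finset.sum_mul, Finset.sum_comm]
            congr 1
            refine Finset.sum_congr rfl fun j _ ↦ ?_
            rw [← Finset.mul_sum]
            congr 1
            simp
        _ ≤ (∑ j, w j * (s : ℝ)) * ρ := by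
            refine mul_le_mul_of_nonneg_right ?_ hρ0
            refine Finset.sum_le_sum fun j _ ↦ mul_le_mul_of_nonneg_left ?_ (hw0 j)
            exact_mod_cast hs j
        _ = s * ρ := by rw [← Finset.sum_mul, hw, one_mul]
  calc ∑ J : Fin N → ι, (∏ i, w (J i)) * ((bad supp J).card : ℝ)
      ≤ ∑ J : Fin N → ι, (∏ i, w (J i)) * (∑ i : Fin N, ∑ i' : Fin N, if i = i' then 0 else
      ∑ t : Fin q, (if t ∈ supp (J i) then (1 : ℝ) else 0) *
        (if t ∈ supp (J i') then 1 else 0)) :=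
        Finset.sum_le_sum fun J _ ↦ mul_le_mul_of_nonneg_left (card_bad_le supp J)
          (Finset.prod_nonneg fun i _ ↦ hw0 _)
    _ = ∑ i : Fin N, ∑ i' : Fin N, ∑ J : Fin N → ι, (∏ k, w (J k)) * (if i = i' then 0 else
      ∑ t : Fin q, (if t ∈ supp (J i) then (1 : ℝ) else 0) *
        (if t ∈ supp (J i') then 1 else 0)) := by
        simp only [Finset.mul_sum]
        rw [Finset.sum_comm]
        refine Finset.sum_congr rfl fun i _ ↦ ?_
        rw [Finset.sum_comm]
    _ ≤ ∑ _i : Fin N, ∑ _i' : Fin N, (s * ρ : ℝ) :=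
        Finset.sum_le_sum fun i _ ↦ Finset.sum_le_sum fun i' _ ↦ h1 i i'
    _ = N ^ 2 * (s * ρ) := by
        simp only [Finset.sum_const, Finset.card_univ, Fintype.card_fin, nsmul_eq_mul]
        ring

theorem sa1 : S_SA1 := by
  intro ι _ q N s ϖ supp η C K E φ hN hϖ hK hs hη hC hE hη0 hφ hI
  classical
  have hK0 : 0 ≤ ∑ j, ϖ j := Finset.sum_nonneg fun j _ ↦ hϖ j
  have hN0 : (0 : ℝ) < N := by exact_mod_cast hN
  rcases hK0.eq_or_lt with h0 | hpos
  · have h1 : ∀ j, ϖ j = 0 := by
      intro j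
      exact (Finset.sum_eq_zero_iff_of_nonneg fun j _ ↦ hϖ j).1 h0.symm j (Finset.mem_univ j)
    simp only [h1, zero_mul, Finset.sum_const_zero]
    have : 0 ≤ K := hK0.trans hK
    positivity
  · set K0 := ∑ j, ϖ j with hK0d
    set w : ι → ℝ := fun j ↦ ϖ j / K0 with hwd
    have hw0 : ∀ j, 0 ≤ w j := fun j ↦ div_nonneg (hϖ j) hpos.le
    have hw : ∑ j, w j = 1 := by
      rw [hwd, ← Finset.sum_div, ← hK0d, div_self hpos.ne']
    have hρ : ∀ t, ∑ j, (if t ∈ supp j then w j else 0) ≤ η / K0 := by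
      intro t
      rw [le_div_iff₀ hpos, Finset.sum_mul]
      refine le_trans (le_of_eq ?_) (hη t)
      refine Finset.sum_congr rfl fun j _ ↦ ?_
      rw [hwd]
      split_ifs
      · rw [div_mul_cancel₀ _ hpos.ne']
      · rw [zero_mul]
    have hb := mean_bad (N := N) hw0 hw hs hρ (div_nonneg hη0 hpos.le)
    -- the pointwise estimate
    have hp : ∀ J : Fin N → ι, ∑ i, φ (J i) ≤ E * N + C * ((bad supp J).card : ℝ) := by
      intro J
      rw [← Finset.sum_compl_add_sum (bad supp J)]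
      refine add_le_add (hI J _ (disjOn_good supp J)) ?_
      calc ∑ i ∈ bad supp J, φ (J i) ≤ ∑ _i ∈ bad supp J, C :=
            Finset.sum_le_sum fun i _ ↦ (hφ _).2
        _ = C * ((bad supp J).card : ℝ) := by
            rw [Finset.sum_const, nsmul_eq_mul, mul_comm]
    have h2 : (N : ℝ) * ∑ j, w j * φ j ≤ E * N + C * (N ^ 2 * (s * (η / K0))) := by
      calc (N : ℝ) * ∑ j, w j * φ j
          = ∑ i : Fin N, ∑ J : Fin N → ι, (∏ i, w (J i)) * φ (J i) := by
            rw [Finset.sum_congr rfl fun i _ ↦ marg hw i φ]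
            rw [Finset.sum_const, Finset.card_univ, Fintype.card_fin, nsmul_eq_mul]
        _ = ∑ J : Fin N → ι, (∏ i, w (J i)) * ∑ i, φ (J i) := by
            rw [Finset.sum_comm]
            refine Finset.sum_congr rfl fun J _ ↦ ?_
            rw [Finset.mul_sum]
        _ ≤ ∑ J : Fin N → ι, (∏ i, w (J i)) * (E * N + C * ((bad supp J).card : ℝ)) :=
            Finset.sum_le_sum fun J _ ↦ mul_le_mul_of_nonneg_left (hp J)
              (Finset.prod_nonneg fun i _ ↦ hw0 _)
        _ = E * N + C * ∑ J : Fin N → ι, (∏ i, w (J i)) * ((bad supp J).card : ℝ) := by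
            simp only [mul_add]
            rw [Finset.sum_add_distrib, ← Finset.sum_mul, mass hw, one_mul, Finset.mul_sum]
            congr 1
            refine Finset.sum_congr rfl fun J _ ↦ by ring
        _ ≤ _ := by gcongr
    have h3 : ∑ j, ϖ j * φ j = K0 * ∑ j, w j * φ j := by
      rw [Finset.mul_sum]
      refine Finset.sum_congr rfl fun j _ ↦ ?_
      rw [hwd]
      field_simp
    have h4 : ∑ j, w j * φ j ≤ E + C * (N * (s * (η / K0))) := by
      have h5 : (N : ℝ) * ∑ j, w j * φ j ≤ N * (E + C * (N * (s * (η / K0)))) := by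
        refine h2.trans (le_of_eq ?_)
        ring
      exact le_of_mul_le_mul_left h5 hN0
    rw [h3]
    calc K0 * ∑ j, w j * φ j ≤ K0 * (E + C * (N * (s * (η / K0)))) :=
          mul_le_mul_of_nonneg_left h4 hpos.le
      _ = K0 * E + C * N * s * η := by
          field_simp
      _ ≤ K * E + C * N * s * η := by gcongr

end Pool.Agent.Helper53.HL
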